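import Pool.Agent.Run7.h608.BC.Iface

/-!
Piece APX of project BC (helper608), by helper939.
-/

set_option autoImplicit false

open MeasureTheory Set Filter Topology
open scoped ENNReal ContDiff

namespace Run7.h939.BC

open Run7.h608.BC

/-- the dyadic bound -/
theorem exists_dyadic (t : ℝ) : ∃ i : ℕ, |t| ≤ 2 ^ i ∧ 1 / (1 + t ^ 2) ≤ 4 * (1 / 4) ^ i := by
  have h1 : ∃ i : ℕ, |t| ≤ 2 ^ i := by
    obtain ⟨i, hi⟩ := pow_unbounded_of_one_lt |t| (by norm_num : (1:ℝ) < 2)
    exact ⟨i, hi.le⟩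
  classical
  refine ⟨Nat.find h1, Nat.find_spec h1, ?_⟩
  rcases Nat.eq_zero_or_pos (Nat.find h1) with h2 | h2
  · rw [h2, pow_zero]
    have h3 : 1 / (1 + t ^ 2) ≤ 1 := by
      rw [div_le_one (by positivity)]
      nlinarith [sq_nonneg t]
    linarith
  · obtain ⟨j, hj⟩ : ∃ j, Nat.find h1 = j + 1 := ⟨Nat.find h1 - 1, by omega⟩
    have h3 : ¬ |t| ≤ 2 ^ j := Nat.find_min h1 (by omega)
    rw [hj]
    have h4 : (2:ℝ) ^ j < |t| := not_le.1 h3
    have h5 : ((2:ℝ) ^ j) ^ 2 ≤ t ^ 2 := by
      rw [← sq_abs t]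
      exact pow_le_pow_left₀ (by positivity) h4.le 2
    have h6 : ((2:ℝ) ^ j) ^ 2 = 4 ^ j := by
      rw [← pow_mul, mul_comm, pow_mul]; norm_num
    rw [h6] at h5
    have h7 : 1 / (1 + t ^ 2) ≤ 1 / 4 ^ j :=
      one_div_le_one_div_of_le (by positivity) (by linarith)
    refine h7.trans (le_of_eq ?_)
    rw [pow_succ, one_div_pow]
    ring

theorem t_APX : S_APX := by
  intro β h x hβ hint hleb ψ hψ hA
  obtain ⟨A, hA⟩ := hA
  have hA0 : 0 ≤ A := by
    have := (norm_nonneg _).trans (hA 0)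
    simpa using this
  have hβ0 : 0 < β := by linarith
  set G : ℝ → ℝ := fun r => ∫ z in Icc (x - r) (x + r), |h z - h x| with hG
  have hgi : ∀ r, IntegrableOn (fun z => h z - h x) (Icc (x - r) (x + r)) := fun r =>
    hint.integrableOn.sub (integrableOn_const (by simp))
  have hG0 : ∀ r, 0 ≤ G r := fun r => integral_nonneg fun _ => abs_nonneg _
  -- boundedness
  obtain ⟨M, hM0, hM⟩ : ∃ M : ℝ, 0 ≤ M ∧ ∀ r, 0 < r → G r / r ≤ M := by
    have h1 : ∀ᶠ r in 𝓝[>] (0:ℝ), G r / r < 1 := hleb.eventually_lt_const one_pos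
    obtain ⟨r0, hr0, h2⟩ := mem_nhdsGT_iff_exists_Ioo_subset.1 h1
    have hr0' : (0:ℝ) < r0 := hr0
    set N : ℝ := ∫ z, |h z| with hN
    have hN0 : 0 ≤ N := integral_nonneg fun _ => abs_nonneg _
    refine ⟨1 + N / r0 + 2 * |h x|, by positivity, fun r hr => ?_⟩
    by_cases hlt : r < r0
    · have h3 : G r / r < 1 := h2 ⟨hr, hlt⟩
      have : 0 ≤ N / r0 + 2 * |h x| := by positivity
      linarith
    · rw [not_lt] at hlt
      have h3 : G r ≤ N + 2 * |h x| * r := by
        have e1 : G r ≤ ∫ z in Icc (x - r) (x + r), (|h z| + |h x|) := by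
          refine integral_mono_of_nonneg (Eventually.of_forall fun _ => abs_nonneg _)
            (hint.abs.integrableOn.add (integrableOn_const (by simp)))
            (Eventually.of_forall fun z => abs_sub _ _)
        have e2 : ∫ z in Icc (x - r) (x + r), (|h z| + |h x|) =
            (∫ z in Icc (x - r) (x + r), |h z|) + ∫ z in Icc (x - r) (x + r), |h x| :=
          integral_add hint.abs.integrableOn (integrableOn_const (by simp))
        have e3 : (∫ z in Icc (x - r) (x + r), |h z|) ≤ N :=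
          setIntegral_le_integral hint.abs (Eventually.of_forall fun _ => abs_nonneg _)
        have e4 : ∫ z in Icc (x - r) (x + r), |h x| = 2 * |h x| * r := by
          rw [setIntegral_const, Measure.real, Real.volume_Icc, smul_eq_mul,
            ENNReal.toReal_ofReal (by linarith)]
          ring
        linarith
      rw [div_le_iff₀ hr]
      have h4 : N ≤ N / r0 * r := by
        rw [div_mul_eq_mul_div, le_div_iff₀ hr0']
        exact mul_le_mul_of_nonneg_left hlt hN0
      nlinarith [abs_nonneg (h x)]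
  -- the series
  set c : ℕ → ℕ → ℝ := fun n i => 4 * A * (1 / 4) ^ i * (β ^ n * G (2 ^ i * (β ^ n)⁻¹)) with hc
  have hcr : ∀ n i, c n i = 4 * A * (1 / 2) ^ i * (G (2 ^ i * (β ^ n)⁻¹) / (2 ^ i * (β ^ n)⁻¹)) := by
    intro n i
    have h1 : (0:ℝ) < β ^ n := pow_pos hβ0 n
    have h2 : (0:ℝ) < 2 ^ i := by positivity
    simp only [hc]
    have h3 : ((1:ℝ) / 4) ^ i = (1 / 2) ^ i * (1 / 2 ^ i) := by
      rw [← one_div_pow, ← mul_pow]; norm_num
    rw [h3]
    field_simp
  have hrpos : ∀ n i, 0 < (2:ℝ) ^ i * (β ^ n)⁻¹ := fun n i => by positivity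
  have hc0 : ∀ n i, 0 ≤ c n i := by
    intro n i
    have := hG0 (2 ^ i * (β ^ n)⁻¹)
    simp only [hc]
    positivity
  have hcM : ∀ n i, c n i ≤ 4 * A * M * (1 / 2) ^ i := by
    intro n i
    rw [hcr]
    have h1 := hM _ (hrpos n i)
    have h2 : (0:ℝ) ≤ 4 * A * (1 / 2) ^ i := by positivity
    calc _ ≤ 4 * A * (1 / 2) ^ i * M := mul_le_mul_of_nonneg_left h1 h2
      _ = _ := by ring
  have hsumb : Summable fun i : ℕ => 4 * A * M * (1 / 2 : ℝ) ^ i :=
    (summable_geometric_of_lt_one (by norm_num) (by norm_num)).mul_left _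
  have hsum : ∀ n, Summable (c n) := fun n =>
    Summable.of_nonneg_of_le (hc0 n) (hcM n) hsumb
  have hlim : Tendsto (fun n => ∑' i, c n i) atTop (𝓝 0) := by
    have h1 : Tendsto (fun n => ∑' i, c n i) atTop (𝓝 (∑' _ : ℕ, (0:ℝ))) := by
      refine tendsto_tsum_of_dominated_convergence (bound := fun i => 4 * A * M * (1 / 2 : ℝ) ^ i)
        hsumb (fun i => ?_) (Eventually.of_forall fun n i => ?_)
      · have h2 : Tendsto (fun n : ℕ => (2:ℝ) ^ i * (β ^ n)⁻¹) atTop (𝓝[>] 0) := by
          refine tendsto_nhdsWithin_iff.2 ⟨?_, Eventually.of_forall fun n => hrpos n i⟩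
          have h3 : Tendsto (fun n : ℕ => (β ^ n)⁻¹) atTop (𝓝 0) :=
            (tendsto_pow_atTop_atTop_of_one_lt hβ).inv_tendsto_atTop
          have := h3.const_mul ((2:ℝ) ^ i)
          rwa [mul_zero] at this
        have h3 := (hleb.comp h2).const_mul (4 * A * (1 / 2) ^ i)
        rw [mul_zero] at h3
        refine h3.congr fun n => ?_
        rw [hcr]
        rfl
      · rw [Real.norm_eq_abs, abs_of_nonneg (hc0 n i)]
        exact hcM n i
    rwa [tsum_zero] at h1
  -- integrability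
  have hψi : Integrable ψ := by
    have h1 : Integrable fun t : ℝ => A * (1 + t ^ 2)⁻¹ := integrable_inv_one_add_sq.const_mul A
    refine h1.mono' hψ.aestronglyMeasurable (Eventually.of_forall fun t => ?_)
    rw [← div_eq_mul_inv]
    exact hA t
  set K : ℕ → ℝ → ℂ := fun n z => ((β ^ n : ℝ) : ℂ) * ψ (β ^ n * (x - z)) with hK
  have hKi : ∀ n, Integrable (K n) := by
    intro n
    have h1 : (0:ℝ) < β ^ n := pow_pos hβ0 n
    have h2 : Integrable fun z : ℝ => ψ (β ^ n * z) := hψi.comp_mul_left' h1.ne'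
    exact (h2.comp_sub_left x).const_mul _
  have hKint : ∀ n, ∫ z, K n z = ∫ t, ψ t := by
    intro n
    have h1 : (0:ℝ) < β ^ n := pow_pos hβ0 n
    simp only [hK]
    rw [integral_const_mul]
    rw [integral_sub_left_eq_self (fun z => ψ (β ^ n * z)) volume x,
      Measure.integral_comp_mul_left ψ (β ^ n), abs_of_pos (inv_pos.2 h1)]
    rw [Complex.real_smul, ← mul_assoc, ← Complex.ofReal_mul, mul_inv_cancel₀ h1.ne']
    simp
  have hKb : ∀ n z, ‖K n z‖ ≤ β ^ n * A := by
    intro n z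
    have h1 : (0:ℝ) < β ^ n := pow_pos hβ0 n
    simp only [hK]
    rw [norm_mul, Complex.norm_real, Real.norm_eq_abs, abs_of_pos h1]
    refine mul_le_mul_of_nonneg_left ((hA _).trans ?_) h1.le
    exact div_le_self hA0 (by nlinarith [sq_nonneg (β ^ n * (x - z))])
  have hKm : ∀ n, Continuous (K n) := by
    intro n
    simp only [hK]
    fun_prop
  have hKhi : ∀ n, Integrable fun z => K n z * (h z : ℂ) := fun n =>
    hint.ofReal.bdd_mul (hKm n).aestronglyMeasurable (Eventually.of_forall (hKb n))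
  -- the main inequality
  have hmain : ∀ n, ‖(∫ z, K n z * (h z : ℂ)) - (h x : ℂ) * ∫ t, ψ t‖ ≤ ∑' i, c n i := by
    intro n
    have hb : (0:ℝ) < β ^ n := pow_pos hβ0 n
    have e1 : (∫ z, K n z * (h z : ℂ)) - (h x : ℂ) * ∫ t, ψ t =
        ∫ z, K n z * ((h z : ℂ) - (h x : ℂ)) := by
      rw [← hKint n, ← integral_const_mul, ← integral_sub (hKhi n) ((hKi n).const_mul _)]
      refine integral_congr_ae (Eventually.of_forall fun z => ?_)
      ring
    rw [e1]
    have e2 : ‖∫ z, K n z * ((h z : ℂ) - (h x : ℂ))‖ₑ ≤ ENNReal.ofReal (∑' i, c n i) := by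
      refine (enorm_integral_le_lintegral_enorm _).trans ?_
      have e3 : ∀ z, ‖K n z * ((h z : ℂ) - (h x : ℂ))‖ₑ ≤ ∑' i : ℕ,
          ENNReal.ofReal (4 * A * (1 / 4) ^ i * β ^ n) *
            (Icc (x - 2 ^ i * (β ^ n)⁻¹) (x + 2 ^ i * (β ^ n)⁻¹)).indicator
              (fun z => ENNReal.ofReal |h z - h x|) z := by
        intro z
        obtain ⟨i, hi1, hi2⟩ := exists_dyadic (β ^ n * (x - z))
        refine le_trans ?_ (ENNReal.le_tsum i)
        have hz : z ∈ Icc (x - 2 ^ i * (β ^ n)⁻¹) (x + 2 ^ i * (β ^ n)⁻¹) := by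
          rw [abs_mul, abs_of_pos hb] at hi1
          have h3 : |x - z| ≤ 2 ^ i * (β ^ n)⁻¹ := by
            rw [← div_eq_mul_inv, le_div_iff₀ hb, mul_comm]
            exact hi1
          rw [abs_le] at h3
          constructor <;> linarith [h3.1, h3.2]
        rw [indicator_of_mem hz, ← ENNReal.ofReal_mul (by positivity)]
        rw [← ofReal_norm]
        refine ENNReal.ofReal_le_ofReal ?_
        rw [norm_mul, ← Complex.ofReal_sub, Complex.norm_real, Real.norm_eq_abs]
        refine mul_le_mul_of_nonneg_right ?_ (abs_nonneg _)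
        simp only [hK]
        rw [norm_mul, Complex.norm_real, Real.norm_eq_abs, abs_of_pos hb]
        have h4 : ‖ψ (β ^ n * (x - z))‖ ≤ A * (4 * (1 / 4) ^ i) := by
          refine (hA _).trans ?_
          rw [div_eq_mul_one_div]
          exact mul_le_mul_of_nonneg_left hi2 hA0
        calc β ^ n * ‖ψ (β ^ n * (x - z))‖ ≤ β ^ n * (A * (4 * (1 / 4) ^ i)) :=
              mul_le_mul_of_nonneg_left h4 hb.le
          _ = 4 * A * (1 / 4) ^ i * β ^ n := by ring
      refine (lintegral_mono e3).trans ?_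
      rw [lintegral_tsum]
      · rw [ENNReal.ofReal_tsum_of_nonneg (hc0 n) (hsum n)]
        refine ENNReal.tsum_le_tsum fun i => ?_
        rw [lintegral_const_mul', lintegral_indicator measurableSet_Icc]
        · have h5 : ∫⁻ z in Icc (x - 2 ^ i * (β ^ n)⁻¹) (x + 2 ^ i * (β ^ n)⁻¹),
              ENNReal.ofReal |h z - h x| = ENNReal.ofReal (G (2 ^ i * (β ^ n)⁻¹)) := by
            rw [hG]
            simp only
            rw [ofReal_integral_eq_lintegral_ofReal (hgi _).abs
              (Eventually.of_forall fun _ => abs_nonneg _)]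
          rw [h5, ← ENNReal.ofReal_mul (by positivity)]
          refine ENNReal.ofReal_le_ofReal (le_of_eq ?_)
          simp only [hc]
          ring
        · exact ENNReal.ofReal_ne_top
      · intro i
        refine AEMeasurable.const_mul ?_ _
        refine AEMeasurable.indicator ?_ measurableSet_Icc
        exact ((hint.aestronglyMeasurable.aemeasurable.sub aemeasurable_const).abs).ennreal_ofReal
    have e4 := ENNReal.toReal_mono ENNReal.ofReal_ne_top e2
    rw [toReal_enorm, ENNReal.toReal_ofReal (tsum_nonneg (hc0 n))] at e4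
    exact e4
  rw [tendsto_iff_norm_sub_tendsto_zero]
  exact squeeze_zero (fun _ => norm_nonneg _) hmain hlim

end Run7.h939.BC
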